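import Pool.Agent.ESF.MainB

/-!
# MP_446eb7_nt: the lower limit of the ratios `g(k+1)/g(k)` is less than `2`

`liminf g(k+1)/g(k) ≤ 4 e^{1-γ} / π = 1.943...`, where `γ` is Euler's constant.

Proof: the improved upper bound for `g(k)` (see `UpperBound`) and an averaging argument over `k` which
only uses Mertens' first theorem show that `g(k) ≤ c^k` infinitely often for every `c > 4 e^{1-γ}/π`.
-/

namespace Pool.Agent.Results.MP_446eb7_nt.SmallRatios

open Pool.Agent.ESF

/-- For every real `c > 4 e^{1-γ}/π` (a number less than `2`) there are infinitely many `k` with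
`g(k+1) < c g(k)`. -/
theorem result :
    (∀ c : ℝ, 4 * Real.exp (1 - Real.eulerMascheroniConstant) / Real.pi < c →
      ∃ᶠ k : ℕ in Filter.atTop, (g (k + 1) : ℝ) < c * g k) ∧
    4 * Real.exp (1 - Real.eulerMascheroniConstant) / Real.pi < 2 := by
  rw [← exp_cs]
  exact ⟨ratio, exp_cs_lt_two⟩

end Pool.Agent.Results.MP_446eb7_nt.SmallRatios
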