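import Pool.Agent.ESF.MainB

/-!
# MP_446eb7_nt: an improved upper bound for the Erdős–Selfridge function

For every `ε > 0` and all large `k`
`g(k) ≤ e^{ε k} ∏_{p ≤ k} p^{min(1, 2{k/p})}`,
where `{k/p} = (k mod p)/p`. (The bound of Ecklund, Erdős and Selfridge has the exponent `1` for every
prime `p ≤ k`, and small corrections.)

Proof: the primes `p ≤ 24 k / log k` and the primes with `{k/p} ≥ 1/2` are treated by the Chinese
remainder theorem (`n ≡ -1`); the other primes are sieved out of a progression by a truncated square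
weight of degree `2 ∑ {k/p}` (a sieve of Selberg's type in a large dimension).
-/

namespace Pool.Agent.Results.MP_446eb7_nt.UpperBound

open Pool.Agent.ESF

/-- For every `ε > 0` and all sufficiently large `k`,
`g(k) ≤ exp(ε k) * ∏_{p ≤ k} p ^ min(1, 2 (k mod p)/p)`. -/
theorem result (ε : ℝ) (hε : 0 < ε) : ∀ᶠ k : ℕ in Filter.atTop,
    (g k : ℝ) ≤ Real.exp (ε * k) *
      ∏ p ∈ Nat.primesLE k, (p : ℝ) ^ (min 1 (2 * ((k % p : ℕ) : ℝ) / p) : ℝ) := by
  filter_upwards [partA ε hε] with k hk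
  have h0 : (0:ℝ) < g k := by exact_mod_cast g_pos k
  have h1 : Real.exp (S k) = ∏ p ∈ Nat.primesLE k, (p : ℝ) ^ (min 1 (2 * ((k % p : ℕ) : ℝ) / p) : ℝ) := by
    unfold S
    rw [Real.exp_sum]
    refine Finset.prod_congr rfl fun p hp => ?_
    have hp0 : (0:ℝ) < p := by exact_mod_cast (Nat.mem_primesLE.mp hp).2.pos
    rw [Real.rpow_def_of_pos hp0, mul_comm]
    rfl
  rw [← h1, ← Real.exp_add, ← Real.log_le_iff_le_exp h0]
  linarith

end Pool.Agent.Results.MP_446eb7_nt.UpperBound
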